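import Mathlib
import Pool.Agent.K6.H39.CT.Core
import Pool.Agent.K6.H39.CT.Bump
import Pool.Agent.K6.H39.CT.Prod
import Pool.Agent.K6.H39.CT.Gram
import Pool.Agent.K6.H39.CT.Hall
import Pool.Agent.K6.H39.CT.Int

/-!
# Spectral variation of commuting Hermitian tuples: `C_K ≤ 2 √3 K`

For all `K`-tuples `A`, `B` of pairwise commuting Hermitian `n × n` matrices the joint eigenvalues can be
matched at a distance of at most `2 √3 K ‖A - B‖`.

Proof (no Fourier transform).  If there is no such matching then by Hall's theorem there are sets `S`, `T`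
of indices with `|S| + |T| > n` and `|α_i - β_k| ≥ ρ > 2 √3 K ‖A - B‖` for `i ∈ S`, `k ∈ T`, hence a unit
vector `z = ∑_S a_i u_i = ∑_T b_k v_k`.  Let `ψ` be the autocorrelation of a bump function `g` supported
in `[-1/2, 1/2]` with `‖g‖ = 1`, `‖g'‖² = 12`.  The function
`F(s) = ∑ conj(a_i) b_k ⟨u_i, v_k⟩ ∏_J ψ(s (α_i^J - β_k^J))` has `F(0) = 1`, `F(√K / ρ) = 0`, and
`F'(s)` is a Schur multiplier given by a Gram matrix, applied to the column `A - B`:
`|F'(s)| ≤ √(12 K) ‖A - B‖`.  So `ρ ≤ 2 √3 K ‖A - B‖`, a contradiction.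

Pieces by helper71 (BUMP), helper84 (PROD), helper58 (GRAM), helper52 (HALL), helper31 (INT).
-/

set_option autoImplicit false

namespace Pool.Agent.Results.MP_434093_an.LinearBound

/-- A `K`-tuple: pairwise commuting Hermitian `n × n` matrices. -/
structure IsTuple {K n : ℕ} (A : Fin K → Matrix (Fin n) (Fin n) ℂ) : Prop where
  hermitian : ∀ J, (A J).IsHermitian
  commute : ∀ J L, A J * A L = A L * A J

/-- `α` is the list of the joint eigenvalues of `A`, with multiplicity: there is an orthonormal basis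
`u` of `ℂ^n` with `A^J u_j = α_j^J u_j`. -/
def JointEigenvalues {K n : ℕ} (A : Fin K → Matrix (Fin n) (Fin n) ℂ)
    (α : Fin n → EuclideanSpace ℝ (Fin K)) : Prop :=
  ∃ u : OrthonormalBasis (Fin n) ℂ (EuclideanSpace ℂ (Fin n)),
    ∀ J j, Matrix.toEuclideanLin (A J) (u j) = ((α j J : ℝ) : ℂ) • u j

/-- `δ`: the minimum over the permutations `π` of the maximum over `j` of `|α_j - β_π(j)|`. -/
noncomputable def matchingDistance {K n : ℕ} (α β : Fin n → EuclideanSpace ℝ (Fin K)) : ℝ :=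
  ⨅ π : Equiv.Perm (Fin n), ⨆ j, ‖α j - β (π j)‖

/-- The operator norm of the map `x ↦ (D^1 x, ..., D^K x)` from `ℂ^n` to `(ℂ^n)^K` (Euclidean norms):
the least `M ≥ 0` with `∑_J |D^J x|² ≤ M² |x|²` for all `x`. -/
noncomputable def tupleNorm {K n : ℕ} (D : Fin K → Matrix (Fin n) (Fin n) ℂ) : ℝ :=
  sInf {M : ℝ | 0 ≤ M ∧ ∀ x : EuclideanSpace ℂ (Fin n),
    ∑ J, ‖Matrix.toEuclideanLin (D J) x‖ ^ 2 ≤ M ^ 2 * ‖x‖ ^ 2}

/-- The map `x ↦ (D^1 x, ..., D^K x)` from `ℂ^n` to `(ℂ^n)^K` (Euclidean norms). -/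
noncomputable def column {K n : ℕ} (D : Fin K → Matrix (Fin n) (Fin n) ℂ) :
    EuclideanSpace ℂ (Fin n) →L[ℂ] PiLp 2 (fun _ : Fin K => EuclideanSpace ℂ (Fin n)) :=
  ((PiLp.continuousLinearEquiv 2 ℂ (fun _ : Fin K => EuclideanSpace ℂ (Fin n))).symm :
    (Fin K → EuclideanSpace ℂ (Fin n)) →L[ℂ]
      PiLp 2 (fun _ : Fin K => EuclideanSpace ℂ (Fin n))).comp
    (ContinuousLinearMap.pi fun J => Matrix.toEuclideanCLM (𝕜 := ℂ) (D J))

lemma norm_column {K n : ℕ} (D : Fin K → Matrix (Fin n) (Fin n) ℂ)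
    (x : EuclideanSpace ℂ (Fin n)) :
    ‖column D x‖ ^ 2 = ∑ J, ‖Matrix.toEuclideanLin (D J) x‖ ^ 2 := by
  rw [PiLp.norm_sq_eq_of_L2]
  rfl

/-- The constant `c` is admissible for `K`; `C_K` is the least admissible constant. -/
def Admissible (K : ℕ) (c : ℝ) : Prop :=
  ∀ (n : ℕ) (A B : Fin K → Matrix (Fin n) (Fin n) ℂ), IsTuple A → IsTuple B →
    ∀ α β : Fin n → EuclideanSpace ℝ (Fin K), JointEigenvalues A α → JointEigenvalues B β →
      matchingDistance α β ≤ c * tupleNorm fun J => A J - B J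

lemma exists_bound {K n : ℕ} (D : Fin K → Matrix (Fin n) (Fin n) ℂ) :
    ‖column D‖ ∈ {M : ℝ | 0 ≤ M ∧ ∀ x : EuclideanSpace ℂ (Fin n),
      ∑ J, ‖Matrix.toEuclideanLin (D J) x‖ ^ 2 ≤ M ^ 2 * ‖x‖ ^ 2} := by
  refine ⟨norm_nonneg _, fun x => ?_⟩
  rw [← norm_column, ← mul_pow]
  exact pow_le_pow_left₀ (norm_nonneg _) (ContinuousLinearMap.le_opNorm _ _) 2

/-- `tupleNorm` is the operator norm. -/
lemma tupleNorm_eq {K n : ℕ} (D : Fin K → Matrix (Fin n) (Fin n) ℂ) :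
    tupleNorm D = ‖column D‖ := by
  apply le_antisymm
  · exact csInf_le ⟨0, fun M hM => hM.1⟩ (exists_bound D)
  · refine le_csInf ⟨_, exists_bound D⟩ ?_
    rintro M ⟨hM, h⟩
    refine ContinuousLinearMap.opNorm_le_bound _ hM fun x => ?_
    have h1 := h x
    rw [← norm_column, ← mul_pow] at h1
    exact le_of_sq_le_sq h1 (by positivity)

open Pool.Agent.K6.H39.CT in
/-- **`C_K ≤ 2 √3 K` for all `K`.** -/
theorem result : ∀ K : ℕ, Admissible K (2 * Real.sqrt 3 * K) := by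
  intro K n A B hA _ α β ⟨u, hu⟩ ⟨v, hv⟩
  rw [tupleNorm_eq]
  have hM : ∀ x : EuclideanSpace ℂ (Fin n),
      ∑ J, ‖(Matrix.toEuclideanLin (A J) - Matrix.toEuclideanLin (B J)) x‖ ^ 2 ≤
        ‖column fun J => A J - B J‖ ^ 2 * ‖x‖ ^ 2 := by
    intro x
    refine le_trans (le_of_eq ?_) ((exists_bound fun J => A J - B J).2 x)
    refine Finset.sum_congr rfl fun J _ => ?_
    rw [map_sub]
  obtain ⟨π, hπ⟩ := core t_BUMP t_PROD t_GRAM t_HALL t_INT
    (fun J => Matrix.toEuclideanLin (A J)) (fun J => Matrix.toEuclideanLin (B J))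
    (fun J => Matrix.isSymmetric_toEuclideanLin_iff.2 (hA.hermitian J)) u v α β hu hv
    ‖column fun J => A J - B J‖ (norm_nonneg _) hM
  refine (ciInf_le (Set.finite_range _).bddBelow π).trans ?_
  exact Real.iSup_le hπ (by positivity)

end Pool.Agent.Results.MP_434093_an.LinearBound
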